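import Pool.Agent.H175R2.XFinal

open Pool.Agent.H175R2

/-- Full classification: for every finite graph `H`, the connected `H`-contraction-free graphs have
bounded clique-width iff `H` is one of `K₁, K₂, K₃, K₄, P₃`, the paw, the diamond, the gem and the
complement of `2P₁ + P₃`; these are the connected induced subgraphs of the gem or of the complement
of `2P₁ + P₃`, other than `P₄`. -/
theorem Pool.Agent.Results.MP_80fcda_co.Classification.result {W : Type} [Finite W]
    (H : SimpleGraph W) :
    BddCw H ↔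
      (Nonempty (H ≃g (⊤ : SimpleGraph (Fin 1))) ∨ Nonempty (H ≃g (⊤ : SimpleGraph (Fin 2))) ∨
       Nonempty (H ≃g (⊤ : SimpleGraph (Fin 3))) ∨ Nonempty (H ≃g (⊤ : SimpleGraph (Fin 4))) ∨
       Nonempty (H ≃g P3) ∨ Nonempty (H ≃g paw) ∨ Nonempty (H ≃g diamond) ∨
       Nonempty (H ≃g gem) ∨ Nonempty (H ≃g X5)) :=
  main H
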